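import Pool.Agent.Lib.MP_2c8569_lc.Meas

set_option autoImplicit false

namespace Pool.Agent.Results.MP_2c8569_lc.Separation

open Pool.Agent.Lib.MP_2c8569_lc

/-- There is a countable transitive model of ZFC in which every `L[a]` has a dominating real and
Goldstern's principle for boldface `Δ¹₂` sets fails. -/
theorem result : ∃ W : Set ZFSet.{0}, W.Countable ∧ IsModel W ∧ PropD W ∧ ¬ GPDelta W := main

end Pool.Agent.Results.MP_2c8569_lc.Separation
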